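import Mathlib

set_option autoImplicit false

namespace Pool.Agent.Results.MP_cb2a9f_co.Counterexample

open Set Matroid

variable {S : Type*}

/-- `B` is a basis (maximal member) of the family `I`. -/
def IsBasisOf (I : Set (Set S)) (B : Set S) : Prop := Maximal (fun Y => Y ∈ I) B

/-- the restriction `I | Z` -/
def restr (I : Set (Set S)) (Z : Set S) : Set (Set S) := {Y | Y ⊆ Z ∧ Y ∈ I}

/-- the contraction `I . Z`, computed with the basis `B` of `I | (W \ Z)` -/
def contr (I : Set (Set S)) (Z B : Set S) : Set (Set S) := {Y | Y ⊆ Z ∧ Y ∪ B ∈ I}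

/-- the dual family of `I` on `W` -/
def dual (W : Set S) (I : Set (Set S)) : Set (Set S) :=
  {X | X ⊆ W ∧ ∃ B, IsBasisOf I B ∧ B ⊆ W \ X}

/-- `(W, I)` is a pre-independence space -/
structure IsPreIndep (W : Set S) (I : Set (Set S)) : Prop where
  ground : ∀ Y ∈ I, Y ⊆ W
  empty : ∅ ∈ I
  down : ∀ Y ∈ I, ∀ Z, Z ⊆ Y → Z ∈ I
  aug : ∀ I₁ ∈ I, ∀ I₂ ∈ I, I₁.Finite → I₂.Finite → I₁.ncard < I₂.ncard →
    ∃ e ∈ I₂ \ I₁, insert e I₁ ∈ I

/-- `(W, I)` is an independence space -/
structure IsIndepSpace (W : Set S) (I : Set (Set S)) : Prop extends IsPreIndep W I where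
  fin : ∀ Y, Y ⊆ W → (∀ F, F ⊆ Y → F.Finite → F ∈ I) → Y ∈ I

/-- `(W, I)` is a B-matroid -/
structure IsBMatroid (W : Set S) (I : Set (Set S)) : Prop where
  ground : ∀ Y ∈ I, Y ⊆ W
  empty : ∅ ∈ I
  down : ∀ Y ∈ I, ∀ Z, Z ⊆ Y → Z ∈ I
  ib1 : ∀ X, X ⊆ W → ∀ T ∈ I, T ⊆ X → ∃ B, IsBasisOf (restr I X) B ∧ T ⊆ B
  ib2 : ∀ X, X ⊆ W → ∀ B₁ B₂, IsBasisOf (restr I X) B₁ → IsBasisOf (restr I X) B₂ →
    ∀ x ∈ B₁ \ B₂, ∃ y ∈ B₂ \ B₁, IsBasisOf (restr I X) (insert y (B₁ \ {x}))

/-- `D` is an admissible system on `S` -/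
structure IsAdmissible (D : Set S → Set (Set (Set S))) : Prop where
  pre : ∀ W, ∀ I ∈ D W, IsPreIndep W I
  restr_mem : ∀ W Z, Z ⊆ W → ∀ I ∈ D W, restr I Z ∈ D Z
  contr_exists : ∀ W Z, Z ⊆ W → ∀ I ∈ D W, ∃ B, IsBasisOf (restr I (W \ Z)) B
  contr_unique : ∀ W Z, Z ⊆ W → ∀ I ∈ D W, ∀ B B', IsBasisOf (restr I (W \ Z)) B →
    IsBasisOf (restr I (W \ Z)) B' → contr I Z B = contr I Z B'
  contr_mem : ∀ W Z, Z ⊆ W → ∀ I ∈ D W, ∀ B, IsBasisOf (restr I (W \ Z)) B →
    contr I Z B ∈ D Z
  dual_mem : ∀ W, ∀ I ∈ D W, dual W I ∈ D W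
  dual_dual : ∀ W, ∀ I ∈ D W, dual W (dual W I) = I

/-- independent sets of a matroid -/
def fam (M : Matroid S) : Set (Set S) := {Y | M.Indep Y}

theorem basis_restr (M : Matroid S) {X B : Set S} (hX : X ⊆ M.E) :
    IsBasisOf (restr (fam M) X) B ↔ M.IsBasis B X := by
  unfold IsBasisOf Matroid.IsBasis
  rw [and_iff_left hX]
  have : (fun Y => Y ∈ restr (fam M) X) = (fun A => M.Indep A ∧ A ⊆ X) := by
    ext Y
    simp [restr, fam, and_comm]
  rw [this]

theorem basis_fam (M : Matroid S) {B : Set S} : IsBasisOf (fam M) B ↔ M.IsBase B := by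
  rw [isBase_iff_maximal_indep]
  rfl

theorem restr_fam (M : Matroid S) (Z : Set S) : restr (fam M) Z = fam (M ↾ Z) := by
  ext Y
  simp [restr, fam, restrict_indep_iff, and_comm]

theorem contr_fam (M : Matroid S) {Z B : Set S} (hZ : Z ⊆ M.E)
    (hB : IsBasisOf (restr (fam M) (M.E \ Z)) B) : contr (fam M) Z B = fam (M ／ (M.E \ Z)) := by
  rw [basis_restr M sdiff_subset] at hB
  ext Y
  simp only [contr, fam, Set.mem_ofPred_eq]
  rw [hB.contract_indep_iff]
  constructor
  · rintro ⟨h1, h2⟩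
    refine ⟨h2, ?_⟩
    exact disjoint_sdiff_left.mono_right h1
  · rintro ⟨h1, h2⟩
    refine ⟨?_, h1⟩
    intro y hy
    by_contra hyZ
    exact (Set.disjoint_left.mp h2) ⟨h1.subset_ground (Or.inl hy), hyZ⟩ hy

theorem dual_fam (M : Matroid S) : dual M.E (fam M) = fam M✶ := by
  ext X
  simp only [dual, fam, Set.mem_ofPred_eq, dual_indep_iff_exists']
  constructor
  · rintro ⟨h1, B, hB, h2⟩
    refine ⟨h1, B, (basis_fam M).mp hB, ?_⟩
    exact Set.disjoint_left.mpr fun x hx hx' => (h2 hx').2 hx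
  · rintro ⟨h1, B, hB, h2⟩
    refine ⟨h1, B, (basis_fam M).mpr hB, ?_⟩
    intro x hx
    exact ⟨hB.subset_ground hx, fun hx' => (Set.disjoint_left.mp h2) hx' hx⟩

theorem pre_fam (M : Matroid S) : IsPreIndep M.E (fam M) where
  ground := fun Y hY => hY.subset_ground
  empty := M.empty_indep
  down := fun Y hY Z hZ => hY.subset hZ
  aug := by
    intro I₁ h1 I₂ h2 f1 f2 hlt
    apply h1.augment h2
    rw [← f1.cast_ncard_eq, ← f2.cast_ncard_eq]
    exact_mod_cast hlt

theorem bmat_fam (M : Matroid S) : IsBMatroid M.E (fam M) where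
  ground := fun Y hY => hY.subset_ground
  empty := M.empty_indep
  down := fun Y hY Z hZ => hY.subset hZ
  ib1 := by
    intro X hX T hT hTX
    obtain ⟨J, hJ, hTJ⟩ := hT.subset_isBasis_of_subset hTX hX
    exact ⟨J, (basis_restr M hX).mpr hJ, hTJ⟩
  ib2 := by
    intro X hX B₁ B₂ h1 h2 x hx
    rw [basis_restr M hX, ← isBase_restrict_iff hX] at h1 h2
    obtain ⟨y, hy, h3⟩ := h1.exchange h2 hx
    refine ⟨y, hy, ?_⟩
    rw [basis_restr M hX, ← isBase_restrict_iff hX]
    exact h3

/-- the system of finitary or cofinitary matroids -/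
def Dsys (W : Set S) : Set (Set (Set S)) :=
  {I | ∃ M : Matroid S, M.E = W ∧ (M.Finitary ∨ M✶.Finitary) ∧ fam M = I}

theorem adm : IsAdmissible (Dsys (S := S)) where
  pre := by
    rintro W I ⟨M, rfl, _, rfl⟩
    exact pre_fam M
  restr_mem := by
    rintro W Z hZ I ⟨M, rfl, hM, rfl⟩
    refine ⟨M ↾ Z, rfl, ?_, (restr_fam M Z).symm⟩
    rcases hM with hM | hM
    · exact Or.inl inferInstance
    · right
      rw [← delete_compl hZ, dual_delete]
      infer_instance
  contr_exists := by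
    rintro W Z hZ I ⟨M, rfl, hM, rfl⟩
    obtain ⟨B, hB⟩ := M.exists_isBasis (M.E \ Z) sdiff_subset
    exact ⟨B, (basis_restr M sdiff_subset).mpr hB⟩
  contr_unique := by
    rintro W Z hZ I ⟨M, rfl, hM, rfl⟩ B B' hB hB'
    rw [contr_fam M hZ hB, contr_fam M hZ hB']
  contr_mem := by
    rintro W Z hZ I ⟨M, rfl, hM, rfl⟩ B hB
    rw [contr_fam M hZ hB]
    refine ⟨M ／ (M.E \ Z), ?_, ?_, rfl⟩
    · rw [contract_ground, sdiff_sdiff_cancel_left hZ]
    · rcases hM with hM | hM
      · exact Or.inl inferInstance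
      · right
        rw [dual_contract]
        infer_instance
  dual_mem := by
    rintro W I ⟨M, rfl, hM, rfl⟩
    rw [dual_fam]
    refine ⟨M✶, rfl, ?_, rfl⟩
    rw [Matroid.dual_dual]
    exact hM.symm
  dual_dual := by
    rintro W I ⟨M, rfl, hM, rfl⟩
    rw [dual_fam]
    have := dual_fam M✶
    rw [dual_ground, Matroid.dual_dual] at this
    exact this

/-- an independence space is (the family of independent sets of) a finitary matroid -/
theorem indepSpace_mem {W : Set S} {I : Set (Set S)} (h : IsIndepSpace W I) : I ∈ Dsys W := by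
  let M : IndepMatroid S := IndepMatroid.ofFinitaryCardAugment W (fun Y => Y ∈ I) h.empty
    (fun Y Z hZ hYZ => h.down Z hZ Y hYZ)
    (fun Y Z hY fY hZ fZ hlt => by
      obtain ⟨e, he, h'⟩ := h.aug Y hY Z hZ fY fZ hlt
      exact ⟨e, he.1, he.2, h'⟩)
    (fun Y hY => by
      apply h.fin
      · intro y hy
        exact h.ground _ (hY {y} (by simpa using hy) (finite_singleton y)) rfl
      · exact hY)
    (fun Y hY => h.ground Y hY)
  refine ⟨M.matroid, rfl, Or.inl ?_, ?_⟩
  · exact IndepMatroid.ofFinitaryCardAugment_finitary _ _ _ _ _ _ _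
  · ext Y
    rfl

/-- rank-one matroid without loops on `B` -/
def U (B : Set S) : Matroid S :=
  (IndepMatroid.ofFinitaryCardAugment B (fun Y => Y ⊆ B ∧ Y.Subsingleton)
    ⟨empty_subset _, subsingleton_empty⟩
    (fun Y Z hZ hYZ => ⟨hYZ.trans hZ.1, hZ.2.anti hYZ⟩)
    (fun Y Z hY fY hZ fZ hlt => by
      have h1 : Z.ncard ≤ 1 := by
        rcases hZ.2.eq_empty_or_singleton with h | ⟨z, h⟩ <;> rw [h] <;> simp
      have h2 : Y.ncard = 0 := by omega
      have h3 : Y = ∅ := (Set.ncard_eq_zero fY).mp h2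
      obtain ⟨z, hz⟩ : Z.Nonempty := by
        by_contra hc
        rw [Set.not_nonempty_iff_eq_empty] at hc
        rw [hc] at hlt
        simp at hlt
      refine ⟨z, hz, by rw [h3]; simp, ?_, ?_⟩
      · rw [h3]; simpa using hZ.1 hz
      · rw [h3]; simp)
    (fun Y hY => by
      constructor
      · intro y hy
        exact (hY {y} (by simpa using hy) (finite_singleton y)).1 rfl
      · intro a ha b hb
        exact (hY {a, b} (by
          intro c hc
          rcases hc with rfl | hc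
          · exact ha
          · rw [mem_singleton_iff] at hc; rw [hc]; exact hb) (by simp)).2 (by simp) (by simp))
    (fun Y hY => hY.1)).matroid

theorem U_E (B : Set S) : (U B).E = B := rfl

theorem U_indep (B : Set S) {Y : Set S} : (U B).Indep Y ↔ Y ⊆ B ∧ Y.Subsingleton := Iff.rfl

theorem U_base {B : Set S} {b : S} (hb : b ∈ B) : (U B).IsBase {b} := by
  rw [isBase_iff_maximal_indep]
  refine ⟨(U_indep B).mpr ⟨by simpa using hb, subsingleton_singleton⟩, ?_⟩
  intro Y hY hbY y hy
  exact (U_indep B).mp hY |>.2 hy (hbY rfl)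

theorem U_base_nonempty {B : Set S} (hB : B.Nonempty) {Y : Set S} (h : (U B).IsBase Y) :
    Y.Nonempty := by
  obtain ⟨b, hb⟩ := hB
  by_contra hc
  rw [Set.not_nonempty_iff_eq_empty] at hc
  rw [hc] at h
  have h1 := h.eq_of_subset_indep (U_base hb).indep (empty_subset _)
  exact (singleton_nonempty b).ne_empty h1.symm

theorem not_mem {A B : Set S} (hAB : Disjoint A B) (hA : A.Infinite) (hB : B.Infinite) :
    ∃ I, IsBMatroid (A ∪ B) I ∧ I ∉ Dsys (A ∪ B) := by
  have hd : Disjoint ((U A)✶).E (U B).E := hAB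
  obtain ⟨M, hM⟩ : ∃ M, M = ((U A)✶).disjointSum (U B) hd := ⟨_, rfl⟩
  have hE : M.E = A ∪ B := by rw [hM, disjointSum_ground_eq]; rfl
  have hbase : ∀ a ∈ A, ∀ b ∈ B, M.IsBase ((A \ {a}) ∪ {b}) := by
    intro a ha b hb
    have hbA : b ∉ A := fun h => Set.disjoint_left.mp hAB h hb
    rw [hM, disjointSum_isBase_iff]
    refine ⟨?_, ?_, ?_⟩
    · show (U A)✶.IsBase (((A \ {a}) ∪ {b}) ∩ A)
      have h1 : ((A \ {a}) ∪ {b}) ∩ A = A \ {a} := by
        ext x
        simp only [mem_inter_iff, mem_union, mem_sdiff, mem_singleton_iff]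
        constructor
        · rintro ⟨h | h, h'⟩
          · exact h
          · rw [h] at h'; exact absurd h' hbA
        · intro h; exact ⟨Or.inl h, h.1⟩
      rw [h1, dual_isBase_iff (by exact sdiff_subset)]
      have h2 : (U A).E \ (A \ {a}) = {a} := by
        show A \ (A \ {a}) = {a}
        rw [sdiff_sdiff_cancel_left (by simpa using ha)]
      rw [h2]
      exact U_base ha
    · show (U B).IsBase (((A \ {a}) ∪ {b}) ∩ B)
      have h1 : ((A \ {a}) ∪ {b}) ∩ B = {b} := by
        ext x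
        simp only [mem_inter_iff, mem_union, mem_sdiff, mem_singleton_iff]
        constructor
        · rintro ⟨h | h, h'⟩
          · exact absurd h' (Set.disjoint_left.mp hAB h.1)
          · exact h
        · rintro rfl; exact ⟨Or.inr rfl, hb⟩
      rw [h1]
      exact U_base hb
    · intro x hx
      rcases hx with h | h
      · exact Or.inl h.1
      · rw [mem_singleton_iff] at h
        rw [h]
        exact Or.inr hb
  refine ⟨fam M, hE ▸ bmat_fam M, ?_⟩
  rintro ⟨N, hNE, hN, hNM⟩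
  have hNM' : N = M := by
    apply ext_indep (hNE.trans hE.symm)
    intro I _
    exact Set.ext_iff.mp hNM I
  rw [hNM'] at hN
  obtain ⟨a0, ha0⟩ := hA.nonempty
  obtain ⟨b0, hb0⟩ := hB.nonempty
  rcases hN with hN | hN
  · have h1 : M.Indep A := by
      apply indep_of_forall_finite_subset_indep
      intro J hJ hJf
      obtain ⟨a, ha, haJ⟩ := hA.exists_notMem_finset hJf.toFinset
      rw [Set.Finite.mem_toFinset] at haJ
      refine (hbase a ha b0 hb0).indep.subset ?_
      intro x hx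
      left
      refine ⟨hJ hx, ?_⟩
      rintro rfl
      exact haJ hx
    rw [hM, disjointSum_indep_iff] at h1
    have h2 : (U A)✶.Indep A := by
      have := h1.1
      have h3 : A ∩ (U A)✶.E = A := inter_self A
      rwa [h3] at this
    rw [dual_indep_iff_exists'] at h2
    obtain ⟨_, Y, hY, hAY⟩ := h2
    obtain ⟨y, hy⟩ := U_base_nonempty hA.nonempty hY
    exact Set.disjoint_left.mp hAY (hY.subset_ground hy) hy
  · have h1 : M✶.Indep B := by
      apply indep_of_forall_finite_subset_indep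
      intro J hJ hJf
      obtain ⟨b, hb, hbJ⟩ := hB.exists_notMem_finset hJf.toFinset
      rw [Set.Finite.mem_toFinset] at hbJ
      rw [dual_indep_iff_exists']
      refine ⟨?_, _, hbase a0 ha0 b hb, ?_⟩
      · rw [hE]; exact fun x hx => Or.inr (hJ hx)
      · rw [Set.disjoint_left]
        rintro x hx (h | h)
        · exact Set.disjoint_left.mp hAB h.1 (hJ hx)
        · rw [mem_singleton_iff] at h
          rw [h] at hx
          exact hbJ hx
    rw [dual_indep_iff_exists'] at h1
    obtain ⟨_, Y, hY, hBY⟩ := h1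
    rw [hM, disjointSum_isBase_iff] at hY
    obtain ⟨y, hy⟩ := U_base_nonempty hB.nonempty hY.2.1
    exact Set.disjoint_left.mp hBY hy.2 hy.1

/-- an infinite set splits into two infinite sets -/
theorem split {W : Set S} (hW : W.Infinite) :
    ∃ A B : Set S, Disjoint A B ∧ A.Infinite ∧ B.Infinite ∧ A ∪ B = W := by
  let e := hW.natEmbedding
  let A : Set S := Set.range (fun n => (e (2 * n) : S))
  have hAW : A ⊆ W := by rintro _ ⟨n, rfl⟩; exact (e (2 * n)).2
  refine ⟨A, W \ A, disjoint_sdiff_right, ?_, ?_, union_sdiff_cancel hAW⟩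
  · apply Set.infinite_range_of_injective
    intro m n h
    have := e.injective (Subtype.ext h)
    omega
  · apply Set.infinite_of_injective_forall_mem (f := fun n : ℕ => (e (2 * n + 1) : S))
    · intro m n h
      have := e.injective (Subtype.ext h)
      omega
    · intro n
      refine ⟨(e (2 * n + 1)).2, ?_⟩
      rintro ⟨m, h⟩
      have := e.injective (Subtype.ext h)
      omega

/-- For every infinite set `S` there is an admissible system `D` in which every `D W` contains all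
independence spaces on `W`, but such that for every infinite `W ⊆ S` some B-matroid on `W` is not
in `D W`. -/
theorem result (S : Type*) [Infinite S] :
    ∃ D : Set S → Set (Set (Set S)), IsAdmissible D ∧
      (∀ W I, IsIndepSpace W I → I ∈ D W) ∧
      (∀ W : Set S, W.Infinite → ∃ I, IsBMatroid W I ∧ I ∉ D W) := by
  refine ⟨Dsys, adm, fun W I h => indepSpace_mem h, ?_⟩
  intro W hW
  obtain ⟨A, B, hAB, hA, hB, rfl⟩ := split hW
  exact not_mem hAB hA hB

end Pool.Agent.Results.MP_cb2a9f_co.Counterexample
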